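import Pool.Agent.U37.NF.Basic
import Pool.Agent.U37.AF.Inst

/-!
# Over a planar neofield of non-prime-power order Pascal's theorem fails very often

Let `K` be a planar finite neofield of order `n`. In the projective plane of `K` the points `(x, y)`
with `x, y ≠ 0` and `1 / y = 1 / x + 1` together with the point `(0, 0)` and the points at infinity of
the two axes are an oval. If `K` is a field, then it is a conic and Pascal's theorem holds for it.

**Theorem.** Let `n ≥ 100` and suppose that `n` is not a prime power. Then Pascal's theorem fails at this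
oval for at least `n ^ 5 / 100000` triples of collinear points, that is, for a positive proportion of
all such triples.

Proof. The theorem behind `MP_502c58_co.PascalGap` (helper671, `U671/PG`) on ovals of projective
planes. That no line has three points of the set follows from the collineations
`(x, y) ↦ (x u, y v)`: if `a, c` are the parameters `1 / x` of the points on the line `y = x m + k`,
`m, k ≠ 0`, then `a c = m / k`.
-/

set_option autoImplicit false

namespace Pool.Agent.Results.MP_46f6e9_co.PascalInNeofields

/-- `K` with the addition `add` and its multiplication is a planar neofield (with commutative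
multiplication, which is no restriction): `add` is a loop with the neutral element `0`, the
distributive law holds, and two points with different first coordinates are on exactly one line
`y = x m + k`, `t = (m, k)`. -/
structure Neofield {K : Type} [CommGroupWithZero K] (add : K → K → K) : Prop where
  zl : ∀ a, add 0 a = a
  zr : ∀ a, add a 0 = a
  ll : ∀ a b, ∃! x, add a x = b
  lr : ∀ a b, ∃! x, add x a = b
  ds : ∀ a b c, add a b * c = add (a * c) (b * c)
  pl : ∀ x x' y y', x ≠ x' → ∃! t : K × K, y = add (x * t.1) t.2 ∧ y' = add (x' * t.1) t.2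

/-- The points of the projective plane: the pairs `(x, y)`, the points `some m` (slope `m`) and
`none` (vertical) at infinity. The same type is used for the lines: `(m, k)` is the line
`y = x m + k`, `some a` the line `x = a` and `none` the line at infinity. -/
abbrev V (K : Type) : Type := (K × K) ⊕ Option K

/-- `On add P l`: the point `P` is on the line `l`. -/
def On {K : Type} [CommGroupWithZero K] (add : K → K → K) : V K → V K → Prop
  | Sum.inl P, Sum.inl l => P.2 = add (P.1 * l.1) l.2
  | Sum.inl P, Sum.inr (some a) => P.1 = a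
  | Sum.inl _, Sum.inr none => False
  | Sum.inr (some s), Sum.inl l => s = l.1
  | Sum.inr (some _), Sum.inr (some _) => False
  | Sum.inr (some _), Sum.inr none => True
  | Sum.inr none, Sum.inl _ => False
  | Sum.inr none, Sum.inr _ => True

/-- The points of the oval: `(0, 0)`, the points at infinity of the two axes and the points `(x, y)`
with `x, y ≠ 0` and `1 / y = 1 / x + 1`. -/
def OnOval {K : Type} [CommGroupWithZero K] (add : K → K → K) (P : V K) : Prop :=
  P = Sum.inl (0, 0) ∨ P = Sum.inr (some 0) ∨ P = Sum.inr none ∨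
    ∃ x y, x ≠ 0 ∧ y ≠ 0 ∧ P = Sum.inl (x, y) ∧ y⁻¹ = add x⁻¹ 1

/-- Some line through `P` meets the oval in `A` and `C` and in no other point (it is a tangent if
`A = C`). -/
def Chord {K : Type} [CommGroupWithZero K] (add : K → K → K) (P A C : V K) : Prop :=
  ∃ l, On add P l ∧ ∀ X, On add X l ∧ OnOval add X ↔ X = A ∨ X = C

/-- The points `P`, `Q`, `R` are collinear and not on the oval, and there are points
`A 0, ..., A 6` of the oval with `A 6 ≠ A 0` such that the chords `A 0 A 1`, ..., `A 5 A 6` pass
through `P`, `Q`, `R`, `P`, `Q`, `R`. -/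
def Fails {K : Type} [CommGroupWithZero K] (add : K → K → K) (P Q R : V K) : Prop :=
  ¬ OnOval add P ∧ ¬ OnOval add Q ∧ ¬ OnOval add R ∧ (∃ l, On add P l ∧ On add Q l ∧ On add R l) ∧
    ∃ A : ℕ → V K, Chord add P (A 0) (A 1) ∧ Chord add Q (A 1) (A 2) ∧ Chord add R (A 2) (A 3) ∧
      Chord add P (A 3) (A 4) ∧ Chord add Q (A 4) (A 5) ∧ Chord add R (A 5) (A 6) ∧ A 6 ≠ A 0

open scoped Classical in
theorem on_iff {K : Type} [CommGroupWithZero K] {add : K → K → K} {P l : V K} :
    Pool.Agent.U37.NF.On add P l ↔ On add P l := by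
  rcases P with (P | (_ | s)) <;> rcases l with (l | (_ | t)) <;> rfl

open scoped Classical in
theorem chord {K : Type} [CommGroupWithZero K] [Fintype K] {add : K → K → K}
    (h : Pool.Agent.U37.NF.Neofield add) {P A C : V K}
    (hc : Pool.Agent.U671.PG.Chord (Pool.Agent.U37.NF.lines add) (Pool.Agent.U37.NF.ov add) P A C) :
    Chord add P A C := by
  obtain ⟨b, hb, hP, he⟩ := hc
  obtain ⟨l, rfl⟩ := Pool.Agent.U37.NF.mem_lines.1 hb
  refine ⟨l, on_iff.1 (Pool.Agent.U37.NF.mem_ln.1 hP), fun X => ?_⟩
  have h1 : X ∈ Pool.Agent.U37.NF.ln add l ∩ Pool.Agent.U37.NF.ov add ↔ X = A ∨ X = C := by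
    rw [he, Finset.mem_insert, Finset.mem_singleton]
  rw [← h1, Finset.mem_inter, Pool.Agent.U37.NF.mem_ln, Pool.Agent.U37.NF.mem_ov_iff h, on_iff]
  rfl

open scoped Classical in
/-- Let `K` be a planar neofield of order at least `100` which is not a prime power. Then there are at
least `|K| ^ 5 / 100000` failures of Pascal's theorem at the oval `1 / y = 1 / x + 1`. -/
theorem result (K : Type) [CommGroupWithZero K] [Fintype K] (add : K → K → K)
    (h : Neofield add) (hn : 100 ≤ Fintype.card K) (hnp : ¬ IsPrimePow (Fintype.card K)) :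
    Fintype.card K ^ 5 ≤ 100000 * {t : V K × V K × V K | Fails add t.1 t.2.1 t.2.2}.ncard := by
  have h' : Pool.Agent.U37.NF.Neofield add := ⟨h.zl, h.zr, h.ll, h.lr, h.ds, h.pl⟩
  refine (Pool.Agent.U37.AF.pascal_inst _ (Pool.Agent.U37.NF.plane h')
    (Pool.Agent.U37.NF.oval h') hn hnp).trans ?_
  apply Nat.mul_le_mul_left
  apply Set.ncard_le_ncard ?_ (Set.toFinite _)
  rintro ⟨P, Q, R⟩ ⟨hP, hQ, hR, ⟨b, hb, hPb, hQb, hRb⟩, A, c0, c1, c2, c3, c4, c5, c6⟩
  obtain ⟨l, rfl⟩ := Pool.Agent.U37.NF.mem_lines.1 hb
  rw [Pool.Agent.U37.NF.mem_ov_iff h'] at hP hQ hR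
  exact ⟨hP, hQ, hR, ⟨l, on_iff.1 (Pool.Agent.U37.NF.mem_ln.1 hPb),
    on_iff.1 (Pool.Agent.U37.NF.mem_ln.1 hQb), on_iff.1 (Pool.Agent.U37.NF.mem_ln.1 hRb)⟩, A,
    chord h' c0, chord h' c1, chord h' c2, chord h' c3, chord h' c4, chord h' c5, c6⟩

end Pool.Agent.Results.MP_46f6e9_co.PascalInNeofields
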